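import Pool.Agent.H51R3.PS.Stmts51

set_option autoImplicit false

namespace Pool.Agent.H832R3.PS

/-- modules of finite length have dimension at most zero -/
theorem taskFL : H51R3.PS.TaskFL := by
  intro R _ _ X _ _ hX
  classical
  obtain ⟨hN, hA⟩ := (isFiniteLength_iff_isNoetherian_isArtinian (R := R) (M := X)).1 hX
  have hfin : Module.Finite R X := inferInstance
  obtain ⟨n, s, hs⟩ := Module.Finite.exists_fin (R := R) (M := X)
  -- the map R -> X^n, r |-> (r * s_i)
  let φ : R →ₗ[R] (Fin n → X) := LinearMap.pi fun i => LinearMap.toSpanSingleton R X (s i)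
  have hker : LinearMap.ker φ = Module.annihilator R X := by
    ext r
    simp only [LinearMap.mem_ker, Module.mem_annihilator]
    constructor
    · intro h x
      have hx : x ∈ Submodule.span R (Set.range s) := by rw [hs]; trivial
      induction hx using Submodule.span_induction with
      | mem x hx =>
        obtain ⟨i, rfl⟩ := hx
        exact congrFun h i
      | zero => exact smul_zero r
      | add x y _ _ hx hy => rw [smul_add, hx, hy, add_zero]
      | smul a x _ hx => rw [smul_comm, hx, smul_zero]
    · intro h
      funext i
      exact h (s i)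
  have hart : IsArtinian R (R ⧸ Module.annihilator R X) := by
    have h1 : IsArtinian R (Fin n → X) := inferInstance
    have h2 : IsArtinian R (R ⧸ LinearMap.ker φ) :=
      isArtinian_of_injective ((LinearMap.ker φ).liftQ φ le_rfl)
        (LinearMap.ker_eq_bot.1 (Submodule.ker_liftQ_eq_bot _ _ _ le_rfl))
    rw [hker] at h2
    exact h2
  have hart' : IsArtinianRing (R ⧸ Module.annihilator R X) := by
    have h3 : IsArtinian (R ⧸ Module.annihilator R X) (R ⧸ Module.annihilator R X) :=
      isArtinian_of_tower R hart
    exact h3
  have h4 : Ring.KrullDimLE 0 (R ⧸ Module.annihilator R X) :=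
    Ring.KrullDimLE.mk₀ fun I hI => IsArtinianRing.isMaximal_of_isPrime I
  have h5 := (Ring.krullDimLE_iff (n := 0) (R := R ⧸ Module.annihilator R X)).1 h4
  simpa using h5
end Pool.Agent.H832R3.PS
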